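import Mathlib
import Pool.Agent.P.MP_0ab4d0_co.TG
import Pool.Agent.P.MP_0ab4d0_co.Neg

namespace Pool.Agent.Results.MP_0ab4d0_co.LowerHalf

/-- Property `P_i`: every two distinct vertices are joined by a path with `i` vertices. -/
def HasP {n : ℕ} (G : SimpleGraph (Fin n)) (i : ℕ) : Prop :=
  ∀ u v : Fin n, u ≠ v → ∃ w : G.Walk u v, w.IsPath ∧ w.length + 1 = i

/-- The closure of `S` among graphs of order `n`. -/
def pathClosure (n : ℕ) (S : Set ℕ) : Set ℕ :=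
  {j | j ∈ Set.Icc 2 n ∧ ∀ G : SimpleGraph (Fin n), (∀ i ∈ S, HasP G i) → HasP G j}

open Pool.Agent.P.MP_0ab4d0_co.Rng in
theorem result (n : ℕ) (S : Set ℕ) (hS : S ⊆ Set.Icc 4 n) (j : ℕ) (h4 : 4 ≤ j) (hj : 2 * j ≤ n) :
    j ∈ pathClosure n S ↔ j ∈ S := by
  refine ⟨fun h => ?_, fun h => ⟨⟨by omega, by omega⟩, fun G hG => hG j h⟩⟩
  by_contra hn
  have hG : ∀ i ∈ S, HasP (gr n (EG ((j : ℤ) - 2) ((n : ℤ) - j + 1))) i := by
    intro i hi
    have h1 := hS hi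
    have h2 : i ≠ j := fun e => hn (e ▸ hi)
    rw [Set.mem_Icc] at h1
    exact all_of_lt fun x y hx hxy hy => gall (by omega) (by omega) (by omega) hx hxy hy
      (by omega) (by omega) (by omega)
  obtain ⟨w, hw, hl⟩ := h.2 _ hG ⟨0, by omega⟩ ⟨n - 1, by omega⟩ (by
    rw [Ne, Fin.mk.injEq]
    omega)
  obtain ⟨f, H, f0, fL⟩ := rt_of_path w hw
  rw [show (w.length : ℤ) = (j : ℤ) - 2 + 1 by omega] at H fL
  simp only [] at f0 fL
  exact noG (by omega) (by omega) H (by omega) (by omega)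

end Pool.Agent.Results.MP_0ab4d0_co.LowerHalf
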