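import Mathlib
import Pool.Agent.P.MP_0ab4d0_co.Petersen

namespace Pool.Agent.Results.MP_0ab4d0_co.NotInterval

/-- Property `P_i`: every two distinct vertices are joined by a path with `i` vertices. -/
def HasP {n : ℕ} (G : SimpleGraph (Fin n)) (i : ℕ) : Prop :=
  ∀ u v : Fin n, u ≠ v → ∃ w : G.Walk u v, w.IsPath ∧ w.length + 1 = i

/-- The closure of `S` among graphs of order `n`. -/
def pathClosure (n : ℕ) (S : Set ℕ) : Set ℕ :=
  {j | j ∈ Set.Icc 2 n ∧ ∀ G : SimpleGraph (Fin n), (∀ i ∈ S, HasP G i) → HasP G j}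

theorem result :
    ¬ ∀ n : ℕ, 4 ≤ n → ∀ S : Set ℕ, S ⊆ Set.Icc 4 n →
      ∃ r s : ℤ, ((↑) : ℕ → ℤ) '' pathClosure n S = Set.Icc r s := by
  intro h
  obtain ⟨r, s, hrs⟩ := h 10 (by norm_num) {6, 8} (by
    rintro x (rfl | rfl) <;> constructor <;> norm_num)
  have h6 : (6 : ℤ) ∈ Set.Icc r s := by
    rw [← hrs]; exact ⟨6, ⟨by norm_num, fun G hG => hG 6 (by simp)⟩, rfl⟩
  have h8 : (8 : ℤ) ∈ Set.Icc r s := by
    rw [← hrs]; exact ⟨8, ⟨by norm_num, fun G hG => hG 8 (by simp)⟩, rfl⟩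
  have h7 : (7 : ℤ) ∈ Set.Icc r s := ⟨by have := h6.1; omega, by have := h8.2; omega⟩
  rw [← hrs] at h7
  obtain ⟨j, hj, hj7⟩ := h7
  have hj' : j = 7 := by exact_mod_cast hj7
  subst hj'
  refine Pool.Agent.P.MP_0ab4d0_co.not7 (hj.2 Pool.Agent.P.MP_0ab4d0_co.pet ?_ 0 1 (by decide))
  rintro i (rfl | rfl)
  · exact Pool.Agent.P.MP_0ab4d0_co.has6
  · exact Pool.Agent.P.MP_0ab4d0_co.has8

end Pool.Agent.Results.MP_0ab4d0_co.NotInterval
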